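import Pool.Agent.MP_3ee8cb_gt.CYB.Spec
import Pool.Agent.MP_3ee8cb_gt.CZP.Peano

/-! Infinitesimal forms of the two point inequalities. -/

namespace Pool.Agent.MP_3ee8cb_gt.CYB

variable [DN.Dim]

open Set Filter Topology DN
open scoped RealInnerProductSpace

variable {E : Type} [NormedAddCommGroup E] [NormedSpace ℝ E] {m m' : MF} {ψ : V × V → V × V}
  {a c C ε : ℝ} {k : E → V × V} {K L : E →L[ℝ] V × V} {e₀ : E}

omit [NormedSpace ℝ E] in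
theorem pair_lim (hk : ContinuousAt k e₀) (hu : ∀ᶠ e in 𝓝 e₀, ‖(k e).2‖ = 1) :
    Tendsto (fun p : E × E => (k p.1, k p.2)) (𝓝 (e₀, e₀)) (𝓝[U2] (k e₀, k e₀)) := by
  have t1 : Tendsto (fun p : E × E => p.1) (𝓝 (e₀, e₀)) (𝓝 e₀) := continuous_fst.tendsto _
  have t2 : Tendsto (fun p : E × E => p.2) (𝓝 (e₀, e₀)) (𝓝 e₀) := continuous_snd.tendsto _
  refine tendsto_nhdsWithin_iff.2 ⟨(hk.tendsto.comp t1).prodMk_nhds (hk.tendsto.comp t2), ?_⟩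
  filter_upwards [t1.eventually hu, t2.eventually hu] with p h1 h2 using ⟨h1, h2⟩

/-- First order consequences. -/
theorem Two.first (h : Two m m' ψ a c C ε (k e₀)) (hu : ∀ᶠ e in 𝓝 e₀, ‖(k e).2‖ = 1)
    (hk : HasFDerivAt k K e₀) (hl : HasFDerivAt (fun e => ψ (k e)) L e₀) (ξ : E) :
    c * ‖(K ξ).2‖ ^ 2 + a ^ 2 * ‖m'.hor (ψ (k e₀)) (L ξ)‖ ^ 2 ≤
      (1 + ε) * ‖m'.ver (ψ (k e₀)) (L ξ)‖ ^ 2 + C * ‖(K ξ).1‖ ^ 2 ∧
    ⟪(ψ (k e₀)).2, m'.hor (ψ (k e₀)) (L ξ)⟫ = ⟪(k e₀).2, m.hor (k e₀) (K ξ)⟫ := by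
  have l0 : Tendsto (fun s : ℝ => (e₀, e₀ + s • ξ)) (𝓝[>] 0) (𝓝 (e₀, e₀)) := by
    have : Continuous fun s : ℝ => (e₀, e₀ + s • ξ) := by fun_prop
    simpa using (this.tendsto 0).mono_left (nhdsWithin_le_nhds (s := Ioi 0))
  have ev := ((pair_lim hk.continuousAt hu).comp l0).eventually h
  set A : ℝ → V × V := fun s => s⁻¹ • (k (e₀ + s • ξ) - k e₀) with hA
  set B : ℝ → V × V := fun s => s⁻¹ • (ψ (k (e₀ + s • ξ)) - ψ (k e₀)) with hB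
  have tA : Tendsto A (𝓝[>] 0) (𝓝 (K ξ)) := (hk.hasLineDerivAt ξ).tendsto_slope_zero_right
  have tB : Tendsto B (𝓝[>] 0) (𝓝 (L ξ)) := (hl.hasLineDerivAt ξ).tendsto_slope_zero_right
  have ev2 : ∀ᶠ s in 𝓝[>] (0 : ℝ), (c * ‖(A s).2‖ ^ 2 + a ^ 2 * ‖m'.hor (ψ (k e₀)) (B s)‖ ^ 2 ≤
      (1 + ε) * ‖m'.ver (ψ (k e₀)) (B s)‖ ^ 2 + C * ‖(A s).1‖ ^ 2) ∧
      |⟪(ψ (k e₀)).2, m'.hor (ψ (k e₀)) (B s)⟫ - ⟪(k e₀).2, m.hor (k e₀) (A s)⟫| ≤
        s * (C * (‖A s‖ ^ 2 + ‖B s‖ ^ 2)) := by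
    filter_upwards [ev, self_mem_nhdsWithin] with s hs s0
    have s0 : 0 < s := s0
    have e1 : k (e₀ + s • ξ) - k e₀ = s • A s := by rw [hA, smul_inv_smul₀ s0.ne']
    have e2 : ψ (k (e₀ + s • ξ)) - ψ (k e₀) = s • B s := by rw [hB, smul_inv_smul₀ s0.ne']
    obtain ⟨h1, h2⟩ := hs
    simp only [Function.comp] at h1 h2
    rw [← Prod.snd_sub, ← Prod.fst_sub, e1, e2] at h1
    rw [e1, e2] at h2
    simp only [map_smul, Prod.smul_snd, Prod.smul_fst, norm_smul, Real.norm_of_nonneg s0.le,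
      inner_smul_right] at h1 h2
    rw [← mul_sub, abs_mul, abs_of_pos s0] at h2
    have p2 : 0 < s ^ 2 := by positivity
    refine ⟨le_of_mul_le_mul_left (by linarith) p2, le_of_mul_le_mul_left (by linarith) s0⟩
  have cA1 := (continuous_fst.tendsto _).comp tA
  have cA2 := (continuous_snd.tendsto _).comp tA
  have cH := ((m'.hor (ψ (k e₀))).continuous.tendsto _).comp tB
  have cV := ((m'.ver (ψ (k e₀))).continuous.tendsto _).comp tB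
  have cH' := ((m.hor (k e₀)).continuous.tendsto _).comp tA
  constructor
  · exact le_of_tendsto_of_tendsto
      (((cA2.norm.pow 2).const_mul c).add ((cH.norm.pow 2).const_mul (a ^ 2)))
      (((cV.norm.pow 2).const_mul (1 + ε)).add ((cA1.norm.pow 2).const_mul C))
      (ev2.mono fun s hs => hs.1)
  · have i0 : Tendsto (fun s : ℝ => s) (𝓝[>] 0) (𝓝 0) := tendsto_id.mono_left nhdsWithin_le_nhds
    have := le_of_tendsto_of_tendsto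
      ((((tendsto_const_nhds (x := (ψ (k e₀)).2)).inner (𝕜 := ℝ) cH).sub
        ((tendsto_const_nhds (x := (k e₀).2)).inner (𝕜 := ℝ) cH')).abs)
      (i0.mul (((tA.norm.pow 2).add (tB.norm.pow 2)).const_mul C)) (ev2.mono fun s hs => hs.2)
    rw [zero_mul, abs_nonpos_iff] at this
    exact sub_eq_zero.1 this

/-- The canonical one form. -/
noncomputable def cv (m : MF) (z : V × V) : V →L[ℝ] ℝ := (innerSL ℝ z.2).comp (m.S z.1)

theorem cv_der (o : m.OK) {f : E → V × V} {D : E →L[ℝ] V × V} (h : HasFDerivAt f D e₀) :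
    ∃ R : E →L[ℝ] V →L[ℝ] ℝ, HasFDerivAt (fun e => cv m (f e)) R e₀ ∧ ∀ ξ η,
      R η (D ξ).1 - R ξ (D η).1 = ⟪m.hor (f e₀) (D ξ), m.ver (f e₀) (D η)⟫ -
        ⟪m.ver (f e₀) (D ξ), m.hor (f e₀) (D η)⟫ := by
  have h1 := (innerSL ℝ (E := V)).hasFDerivAt.comp e₀ h.snd
  have h2 := ((o.cS.differentiable (by norm_num)) (f e₀).1).hasFDerivAt.comp e₀ h.fst
  refine ⟨_, h1.clm_comp h2, fun ξ η => ?_⟩
  have t := congrArg (fun v => ⟪(f e₀).2, v⟫) (o.tors (f e₀).1 (D ξ).1 (D η).1)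
  have s1 := o.skew (f e₀).1 (D ξ).1 (f e₀).2 (m.S (f e₀).1 (D η).1)
  have s2 := o.skew (f e₀).1 (D η).1 (f e₀).2 (m.S (f e₀).1 (D ξ).1)
  simp only [inner_add_right, inner_sub_right, inner_zero_right] at t
  simp [MF.hor, MF.ver, inner_add_left, inner_add_right]
  rw [real_inner_comm _ (m.S (f e₀).1 (D ξ).1), real_inner_comm _ (m.S (f e₀).1 (D ξ).1)]
  have i : ∀ u v : V, innerSL ℝ u v = ⟪u, v⟫ := fun _ _ => rfl
  erw [i, i, i, i]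
  linarith

/-- The second order consequence: the symplectic forms agree. -/
theorem Two.second (o : m.OK) (o' : m'.OK) (h : Two m m' ψ a c C ε (k e₀))
    (hu : ∀ᶠ e in 𝓝 e₀, ‖(k e).2‖ = 1) (hk : HasFDerivAt k K e₀)
    (hl : HasFDerivAt (fun e => ψ (k e)) L e₀) {M : ℝ}
    (lip : ∀ᶠ p : E × E in 𝓝 (e₀, e₀), ‖k p.2 - k p.1‖ ≤ M * ‖p.2 - p.1‖ ∧
      ‖ψ (k p.2) - ψ (k p.1)‖ ≤ M * ‖p.2 - p.1‖) (ξ η : E) :
    ⟪m'.hor (ψ (k e₀)) (L ξ), m'.ver (ψ (k e₀)) (L η)⟫ -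
      ⟪m'.ver (ψ (k e₀)) (L ξ), m'.hor (ψ (k e₀)) (L η)⟫ =
    ⟪m.hor (k e₀) (K ξ), m.ver (k e₀) (K η)⟫ - ⟪m.ver (k e₀) (K ξ), m.hor (k e₀) (K η)⟫ := by
  obtain ⟨R, r1, r2⟩ := cv_der o hk
  obtain ⟨R', r1', r2'⟩ := cv_der o' hl
  let B : ((V →L[ℝ] ℝ) × (V →L[ℝ] ℝ)) →L[ℝ] (V × V) →L[ℝ] ℝ :=
    (ContinuousLinearMap.id ℝ (V →L[ℝ] ℝ)).bilinearComp (.fst ℝ _ _) (.fst ℝ _ _) -
      (ContinuousLinearMap.id ℝ (V →L[ℝ] ℝ)).bilinearComp (.snd ℝ _ _) (.snd ℝ _ _)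
  have hB : ∀ r q, B r q = r.1 q.1 - r.2 q.2 := fun r q => rfl
  have ev := (pair_lim hk.continuousAt hu).eventually h
  have := CZP.peano B (k := fun _ => (0 : ℝ)) (r1'.prodMk r1) (hl.fst.prodMk hk.fst)
    (C := |C| * (M ^ 2 + M ^ 2)) (L := M) (by
      filter_upwards [ev, lip] with p h1 h2
      have n1 := pow_le_pow_left₀ (norm_nonneg _) h2.1 2
      have n2 := pow_le_pow_left₀ (norm_nonneg _) h2.2 2
      constructor
      · rw [sub_self, zero_sub, abs_neg, hB]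
        refine le_trans (le_of_eq rfl) (h1.2.trans ?_)
        calc _ ≤ |C| * (‖k p.2 - k p.1‖ ^ 2 + ‖ψ (k p.2) - ψ (k p.1)‖ ^ 2) :=
              mul_le_mul_of_nonneg_right (le_abs_self C) (by positivity)
          _ ≤ |C| * ((M * ‖p.2 - p.1‖) ^ 2 + (M * ‖p.2 - p.1‖) ^ 2) := by gcongr
          _ = _ := by ring
      · exact max_le ((norm_fst_le (ψ (k p.2) - ψ (k p.1))).trans h2.2)
          ((norm_fst_le (k p.2 - k p.1)).trans h2.1)) ξ η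
  rw [hB, hB] at this
  rw [← r2, ← r2']
  simp only [ContinuousLinearMap.prod_apply, ContinuousLinearMap.comp_apply,
    ContinuousLinearMap.coe_fst'] at this
  linarith

end Pool.Agent.MP_3ee8cb_gt.CYB
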