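import Pool.Agent.MP_3ee8cb_gt.CYO.Spec

/-! The two point inequality for a continuous conjugacy: statement. -/

namespace Pool.Agent.MP_3ee8cb_gt.CYB

variable [DN.Dim]

open Set Filter Topology DN
open scoped RealInnerProductSpace

/-- Pairs of unit vectors. -/
def U2 : Set ((V × V) × V × V) := {p | ‖p.1.2‖ = 1 ∧ ‖p.2.2‖ = 1}

/-- The two point inequalities near `z₀` for a map `ψ`. -/
def Two (m m' : MF) (ψ : V × V → V × V) (a c C ε : ℝ) (z₀ : V × V) : Prop :=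
  ∀ᶠ p in 𝓝[U2] (z₀, z₀),
    c * ‖p.2.2 - p.1.2‖ ^ 2 + a ^ 2 * ‖m'.hor (ψ z₀) (ψ p.2 - ψ p.1)‖ ^ 2 ≤
      (1 + ε) * ‖m'.ver (ψ z₀) (ψ p.2 - ψ p.1)‖ ^ 2 + C * ‖p.2.1 - p.1.1‖ ^ 2 ∧
    |⟪(ψ p.1).2, m'.hor (ψ p.1) (ψ p.2 - ψ p.1)⟫ - ⟪p.1.2, m.hor p.1 (p.2 - p.1)⟫| ≤
      C * (‖p.2 - p.1‖ ^ 2 + ‖ψ p.2 - ψ p.1‖ ^ 2)

/-- The two point inequalities hold at all times; `c` depends on the point only. -/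
def LIPF (m m' : MF) (φ : V × V → V × V) (a : ℝ) : Prop := ∀ z₀ : V × V, ‖z₀.2‖ = 1 →
  ∃ c, 0 < c ∧ ∀ t ε : ℝ, 0 < ε → ∃ C, Two m m' (fun z => m'.Z t (φ z)) a c C ε z₀

end Pool.Agent.MP_3ee8cb_gt.CYB
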